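import Pool.Agent.helper9.RA.SpecE
import Pool.Agent.helper63.RS.SpecT

/-!
# rw:FSE2 (helper43): no critical points near `x`, bounded loss at `x`: bounded distortion near `p` (planar levels)

Compare Pool/Agent/helper79/RA/FSE.lean. HARNACK for the logarithm of the derivative.
-/

set_option autoImplicit false

open Complex Metric Set Filter Topology MeasureTheory
open HY (UD T S hd UN RM)
open RT
open PL (cm BS DQ)
open RB (VL LO FLS FL CLS FR TL TLL INN WIN DRT)
open RB (NCR WINB)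

noncomputable section

namespace RA

theorem FSE2_c1 (g : ℂ → ℂ) (V : Set ℂ) (hg : DifferentiableOn ℂ g V) (p : ℂ) (r M : ℝ) (hr : 0 < r)
    (hsub : ∀ z, ‖z - p‖ ≤ r → z ∈ V)
    (hb : ∀ z, ‖z - p‖ ≤ r → ‖g z - g p‖ ≤ M) : ∀ w, ‖w - p‖ ≤ r / 2 → ‖deriv g w‖ ≤ 2 * M / r := by
  intro w hw
  have hin : ∀ z ∈ closedBall w (r / 2), ‖z - p‖ ≤ r := by
    intro z hz
    rw [mem_closedBall, dist_eq_norm] at hz
    calc ‖z - p‖ = ‖(z - w) + (w - p)‖ := by ring_nf
      _ ≤ ‖z - w‖ + ‖w - p‖ := norm_add_le _ _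
      _ ≤ r := by linarith
  have h1 : ‖deriv (fun z => g z - g p) w‖ ≤ M / (r / 2) := by
    apply Complex.norm_deriv_le_of_forall_mem_sphere_norm_le (by linarith)
    · have hc : DifferentiableOn ℂ (fun z => g z - g p) (closedBall w (r / 2)) :=
        (hg.mono (fun z hz => hsub z (hin z hz))).sub (differentiableOn_const _)
      exact hc.diffContOnCl_ball subset_rfl
    · intro z hz
      exact hb z (hin z (sphere_subset_closedBall hz))
  have h2 : deriv (fun z => g z - g p) w = deriv g w := by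
    rw [deriv_sub_const]
  rw [h2] at h1
  calc ‖deriv g w‖ ≤ M / (r / 2) := h1
    _ = 2 * M / r := by field_simp

/-- Harnack (half of the disc), for the imaginary part of a holomorphic function (copy of helper29/NCL/TAME). -/
theorem FSE2_har {h : ℂ → ℂ} {q z : ℂ} {R : ℝ} (hR : 0 < R) (hd : DifferentiableOn ℂ h (ball q R))
    (hp : ∀ w ∈ ball q R, 0 < (h w).im) (hz : ‖z - q‖ ≤ R / 2) : (h q).im / 3 ≤ (h z).im := by
  classical
  have hq : q ∈ ball q R := mem_ball_self hR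
  have hzb : z ∈ ball q R := by
    rw [mem_ball, dist_eq_norm]; linarith
  have hden : ∀ w ∈ ball q R, h w - (starRingEnd ℂ) (h q) ≠ 0 := by
    intro w hw h0
    have h1 : (h w - (starRingEnd ℂ) (h q)).im = (h w).im + (h q).im := by simp
    rw [h0] at h1
    have := hp w hw
    have := hp q hq
    simp at h1
    linarith
  have e1 : ∀ w, ‖h w - h q‖ ^ 2 = ((h w).re - (h q).re) ^ 2 + ((h w).im - (h q).im) ^ 2 := by
    intro w
    rw [← Complex.normSq_eq_norm_sq, Complex.normSq_apply]; simp; ring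
  have e2 : ∀ w, ‖h w - (starRingEnd ℂ) (h q)‖ ^ 2
      = ((h w).re - (h q).re) ^ 2 + ((h w).im + (h q).im) ^ 2 := by
    intro w
    rw [← Complex.normSq_eq_norm_sq, Complex.normSq_apply]; simp; ring
  set g : ℂ → ℂ := fun w => (h w - h q) / (h w - (starRingEnd ℂ) (h q)) with hg
  have hgq : g q = 0 := by simp [hg]
  have hgd : DifferentiableOn ℂ g (ball q R) :=
    (hd.sub_const _).div (hd.sub_const _) hden
  have hgm : MapsTo g (ball q R) (closedBall (g q) 1) := by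
    intro w hw
    rw [hgq, mem_closedBall_zero_iff, hg]
    simp only [norm_div]
    rw [div_le_one (norm_pos_iff.2 (hden w hw))]
    have h1 := hp w hw
    have h2 := hp q hq
    have h3 : ‖h w - h q‖ ^ 2 ≤ ‖h w - (starRingEnd ℂ) (h q)‖ ^ 2 := by
      rw [e1, e2]; nlinarith
    exact le_of_sq_le_sq h3 (norm_nonneg _)
  have hS := Complex.dist_le_div_mul_dist_of_mapsTo_ball hgd hgm hzb
  rw [hgq, dist_zero_right, dist_eq_norm] at hS
  have hS2 : ‖g z‖ ≤ 1 / 2 := by
    refine hS.trans ?_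
    rw [div_mul_eq_mul_div, one_mul, div_le_div_iff₀ hR (by norm_num)]
    linarith
  have hS3 : ‖h z - h q‖ ≤ 1 / 2 * ‖h z - (starRingEnd ℂ) (h q)‖ := by
    have : ‖g z‖ = ‖h z - h q‖ / ‖h z - (starRingEnd ℂ) (h q)‖ := by simp [hg]
    rw [this, div_le_iff₀ (norm_pos_iff.2 (hden z hzb))] at hS2
    exact hS2
  have hS4 : ‖h z - h q‖ ^ 2 ≤ 1 / 4 * ‖h z - (starRingEnd ℂ) (h q)‖ ^ 2 := by
    have := pow_le_pow_left₀ (norm_nonneg _) hS3 2
    calc _ ≤ _ := this
      _ = _ := by ring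
  rw [e1, e2] at hS4
  have hz1 := hp z hzb
  have hq1 := hp q hq
  by_contra hcon
  push Not at hcon
  nlinarith [sq_nonneg ((h z).re - (h q).re)]

/-- Logarithm of a nonvanishing holomorphic function on a disc (copy of helper30/FZ/Cocycle). -/
theorem FSE2_log {f : ℂ → ℂ} {a : ℂ} {R : ℝ} (hR : 0 < R)
    (hf : DifferentiableOn ℂ f (Metric.ball a R)) (h0 : ∀ z ∈ Metric.ball a R, f z ≠ 0) :
    ∃ h : ℂ → ℂ, DifferentiableOn ℂ h (Metric.ball a R) ∧
      ∀ z ∈ Metric.ball a R, Complex.exp (h z) = f z := by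
  have ha : a ∈ Metric.ball a R := Metric.mem_ball_self hR
  have hd : DifferentiableOn ℂ (fun z => deriv f z / f z) (Metric.ball a R) :=
    (hf.deriv Metric.isOpen_ball).div hf h0
  obtain ⟨F, hF⟩ := hd.isExactOn_ball
  set h : ℂ → ℂ := fun z => F z - F a + Complex.log (f a) with hh
  have hhd : ∀ z ∈ Metric.ball a R, HasDerivAt h (deriv f z / f z) z := by
    intro z hz
    exact ((hF z hz).sub_const _).add_const _
  have hfd : ∀ z ∈ Metric.ball a R, HasDerivAt f (deriv f z) z := by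
    intro z hz
    exact (hf.differentiableAt (Metric.isOpen_ball.mem_nhds hz)).hasDerivAt
  refine ⟨h, fun z hz => (hhd z hz).differentiableAt.differentiableWithinAt, ?_⟩
  set G : ℂ → ℂ := fun z => f z * Complex.exp (-h z) with hG
  have hGd : ∀ z ∈ Metric.ball a R, HasDerivAt G 0 z := by
    intro z hz
    have h1 : HasDerivAt G (deriv f z * Complex.exp (-h z) +
        f z * (Complex.exp (-h z) * (-(deriv f z / f z)))) z :=
      (hfd z hz).mul ((hhd z hz).neg.cexp)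
    have h2 : deriv f z * Complex.exp (-h z) +
        f z * (Complex.exp (-h z) * (-(deriv f z / f z))) = 0 := by
      have := h0 z hz
      field_simp
      ring
    rw [h2] at h1
    exact h1
  have hconst : ∀ z ∈ Metric.ball a R, G z = G a := by
    intro z hz
    have hdiff : DifferentiableOn ℂ G (Metric.ball a R) :=
      fun w hw => (hGd w hw).differentiableAt.differentiableWithinAt
    refine (convex_ball a R).is_const_of_fderivWithin_eq_zero (𝕜 := ℂ) hdiff ?_ hz ha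
    intro w hw
    rw [fderivWithin_of_isOpen Metric.isOpen_ball hw]
    have := (hGd w hw).hasFDerivAt.fderiv
    rw [this]
    ext
    simp
  intro z hz
  have h1 := hconst z hz
  have h2 : G a = 1 := by
    simp only [hG, hh]
    rw [sub_self, zero_add, Complex.exp_neg, Complex.exp_log (h0 a ha)]
    exact mul_inv_cancel₀ (h0 a ha)
  rw [h2] at h1
  simp only [hG] at h1
  rw [Complex.exp_neg] at h1
  have h3 := Complex.exp_ne_zero (h z)
  field_simp at h1
  exact h1.symm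

/-- HARNACK for a zero-free bounded function. -/
theorem FSE2_low (D : ℂ → ℂ) (x : ℂ) (R M q : ℝ) (hR : 0 < R) (hM : 0 < M) (hq : 0 < q)
    (hD : DifferentiableOn ℂ D (ball x R)) (h0 : ∀ z ∈ ball x R, D z ≠ 0) (hb : ∀ z ∈ ball x R, ‖D z‖ ≤ M)
    (hx : 2 * M * q ≤ ‖D x‖) : ∀ z, ‖z - x‖ ≤ R / 4 → 2 * M * q ^ 3 ≤ ‖D z‖ := by
  intro z hz
  have hM2 : 0 < 2 * M := by linarith
  have hM2c : ((2 * M : ℝ) : ℂ) ≠ 0 := by exact_mod_cast hM2.ne'
  obtain ⟨φ, hφd, hφe⟩ := FSE2_log (f := fun z => D z / ((2 * M : ℝ) : ℂ)) hR (hD.div_const _)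
    (fun w hw => div_ne_zero (h0 w hw) hM2c)
  have hre : ∀ w ∈ ball x R, Real.exp (φ w).re = ‖D w‖ / (2 * M) := by
    intro w hw
    rw [← Complex.norm_exp, hφe w hw, norm_div, Complex.norm_real, Real.norm_eq_abs, abs_of_pos hM2]
  have hneg : ∀ w ∈ ball x R, (φ w).re < 0 := by
    intro w hw
    rw [← Real.exp_lt_one_iff, hre w hw, div_lt_one hM2]
    linarith [hb w hw]
  have hxb : x ∈ ball x R := mem_ball_self hR
  have hsub : ball z (3 * R / 4) ⊆ ball x R := by
    intro w hw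
    rw [mem_ball, dist_eq_norm] at hw ⊢
    calc ‖w - x‖ = ‖(w - z) + (z - x)‖ := by ring_nf
      _ ≤ ‖w - z‖ + ‖z - x‖ := norm_add_le _ _
      _ < R := by linarith
  have him : ∀ w : ℂ, (-I * φ w).im = -(φ w).re := by
    intro w
    simp
  have hH := FSE2_har (h := fun w => -I * φ w) (q := z) (z := x) (R := 3 * R / 4) (by linarith)
    ((hφd.mono hsub).const_mul _) (fun w hw => by
      rw [him]
      linarith [hneg w (hsub hw)]) (by rw [norm_sub_rev]; linarith)
  simp only [him] at hH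
  have hzb : z ∈ ball x R := hsub (mem_ball_self (by linarith))
  have h1 : 3 * (φ x).re ≤ (φ z).re := by linarith
  have h2 : Real.exp (φ x).re ^ 3 ≤ Real.exp (φ z).re := by
    rw [← Real.exp_nat_mul]
    push_cast
    exact Real.exp_le_exp.2 h1
  rw [hre x hxb, hre z hzb] at h2
  have h3 : q ≤ ‖D x‖ / (2 * M) := by
    rw [le_div_iff₀ hM2]
    linarith
  have h4 : q ^ 3 ≤ ‖D z‖ / (2 * M) := le_trans (pow_le_pow_left₀ hq.le h3 3) h2
  rw [le_div_iff₀ hM2] at h4
  linarith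

theorem FSE2 (hEUP : EUP_stmt) (hTKO : TKO_stmt) (hTDF : TDF_stmt)
    (hTSP : TSP_stmt) (hVPB : RS.VPB_stmt) (hVCF : RS.VCF_stmt) : FSE2_stmt := by
  intro Y s hS c₀ hc₀
  have hs0 : 0 < s := hS.ok.s0
  have hs1 : s ≤ 1 := by linarith [hS.ok.s1]
  obtain ⟨K, hK1, hKa, hKρ⟩ := hTKO s hs0 hs1
  obtain ⟨C, hC1, hCW⟩ := hKρ (1 / 4) (by norm_num) (by norm_num)
  obtain ⟨K', hK'1, hK'⟩ := hEUP s hs0 hs1
  have hK0 : 0 < K := by linarith
  have hC0 : 0 < C := by linarith
  have hK'0 : 0 < K' := by linarith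
  set κ : ℝ := min (1 / (8 * K)) (c₀ / (2 * K)) with hκ
  have hκ0 : 0 < κ := lt_min (by positivity) (by positivity)
  have hκ1 : K * κ ≤ 1 / 8 := by
    calc K * κ ≤ K * (1 / (8 * K)) := mul_le_mul_of_nonneg_left (min_le_left _ _) hK0.le
      _ = 1 / 8 := by field_simp
  have hκ2 : K * κ ≤ c₀ / 2 := by
    calc K * κ ≤ K * (c₀ / (2 * K)) := mul_le_mul_of_nonneg_left (min_le_right _ _) hK0.le
      _ = c₀ / 2 := by field_simp
  have hκ3 : κ ≤ 1 / 8 := by nlinarith
  refine ⟨κ / (16 * C), κ / (16 * K'), by positivity, ?_, by positivity, ?_, ?_⟩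
  · rw [div_le_iff₀ (by positivity)]
    nlinarith
  · rw [div_le_iff₀ (by positivity)]
    nlinarith
  intro a ha
  set q : ℝ := a * κ / (4 * K') with hq
  have hq0 : 0 < q := by positivity
  refine ⟨1 + 1 / (2 * q ^ 3), by
    have : 0 < 1 / (2 * q ^ 3) := by positivity
    linarith, ?_⟩
  intro x hxJ n t hNC hax p hpJ hpV hpd
  obtain ⟨-, -, -, -, -, hJV⟩ := hVPB Y s 0 0 hS.ok Y.U hS.lv
  have hxV : x ∈ PB Y Y.U (n + t) := hJV (n + t) hxJ
  obtain ⟨hDV, hxm, hVsub, hVeq, -, -, hmap, hdif, -, -, -⟩ := hVCF Y s 0 0 hS.ok Y.U hS.lv (n + t) x hxV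
  have hVp : VC Y Y.U (n + t) p = VC Y Y.U (n + t) x := hVeq p hpV
  have hm : MapsTo (it Y t) (VC Y Y.U (n + t) x) (VC Y Y.U n (it Y t x)) := by
    have := hmap t (by omega)
    rwa [show n + t - t = n by omega] at this
  have hsx : it Y t x ∈ PB Y Y.U n :=
    connectedComponentIn_subset _ _ (hm hxm)
  obtain ⟨hDW, hsxm, -, -, -, -, -, -, -, -, -⟩ := hVCF Y s 0 0 hS.ok Y.U hS.lv n (it Y t x) hsx
  have hcv : cv Y n p t = cr (VC Y Y.U (n + t) x) p := by
    show cr (VC Y Y.U (n + t) p) p = _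
    rw [hVp]
  have hg : DifferentiableOn ℂ (it Y t) (VC Y Y.U (n + t) x) := hdif t (by omega)
  show (∀ ξ : ℂ, ‖ξ - p‖ ≤ κ / (16 * C) * cv Y n p t → ξ ∈ VC Y Y.U (n + t) p) ∧
    ∀ z ξ : ℂ, ‖z - p‖ ≤ κ / (16 * C) * cv Y n p t → ‖ξ - p‖ ≤ κ / (16 * C) * cv Y n p t →
    ‖it Y t ξ - it Y t z‖ ≤ (1 + 1 / (2 * q ^ 3)) * ‖deriv (it Y t) z‖ * ‖ξ - z‖
  rw [hcv, hVp]
  have hNC' : ∀ q ∈ VC Y Y.U (n + t) x, pd (VC Y Y.U (n + t) x) x q ≤ c₀ → deriv (it Y t) q ≠ 0 := hNC
  have hax' : a ≤ ‖deriv (it Y t) x‖ * cr (VC Y Y.U (n + t) x) x / cr (VC Y Y.U n (it Y t x)) (it Y t x) := hax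
  have hpV' : p ∈ VC Y Y.U (n + t) x := hpV
  have hpd' : pd (VC Y Y.U (n + t) x) x p ≤ κ / (16 * K') := hpd
  clear hNC hax hpV hpd
  set V := VC Y Y.U (n + t) x with hVdef
  set W := VC Y Y.U n (it Y t x) with hWdef
  set g := it Y t with hgdef
  have hVo : IsOpen V := hDV.op
  have hc'0 : 0 < cr V x := (hTDF s V hDV x hxm).2.1
  have hc''0 : 0 < cr W (g x) := (hTDF s W hDW (g x) hsxm).2.1
  set c' := cr V x with hc'def
  set c'' := cr W (g x) with hc''def
  obtain ⟨-, -, hKp⟩ := hKa V hDV x hxm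
  set r : ℝ := κ * c' with hrdef
  have hr0 : 0 < r := by positivity
  have hrK : r < c' / K := by
    rw [lt_div_iff₀ hK0, hrdef]
    nlinarith
  -- the points near `x`
  have hnear : ∀ z, ‖z - x‖ ≤ r → z ∈ V ∧ pd V x z ≤ K * κ := by
    intro z hz
    obtain ⟨h1, h2⟩ := hKp z (lt_of_le_of_lt hz hrK)
    refine ⟨h1, h2.trans ?_⟩
    rw [div_le_iff₀ hc'0]
    calc K * ‖z - x‖ ≤ K * r := mul_le_mul_of_nonneg_left hz hK0.le
      _ = K * κ * c' := by rw [hrdef]; ring
  have hgb : ∀ z, ‖z - x‖ ≤ r → ‖g z - g x‖ ≤ K' * c'' := by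
    intro z hz
    obtain ⟨h1, h2⟩ := hnear z hz
    have h3 : pd W (g x) (g z) ≤ pd V x z := (hTSP s V W g hDV hDW hg hm x hxm).2.2.2 z h1
    have h4 := (hK' W hDW (g x) hsxm).2 (g z) (by linarith)
    calc ‖g z - g x‖ ≤ K' * (pd W (g x) (g z) * c'') := h4
      _ ≤ K' * (1 * c'') := by
        apply mul_le_mul_of_nonneg_left _ hK'0.le
        exact mul_le_mul_of_nonneg_right (by linarith) hc''0.le
      _ = K' * c'' := by ring
  set M : ℝ := 2 * (K' * c'') / r with hMdef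
  have hM0 : 0 < M := by positivity
  have hup : ∀ z, ‖z - x‖ ≤ r / 2 → ‖deriv g z‖ ≤ M :=
    FSE2_c1 g V hg x r (K' * c'') hr0 (fun z hz => (hnear z hz).1) hgb
  have hdg : DifferentiableOn ℂ (deriv g) V := hg.deriv hVo
  have hinr : ∀ z ∈ ball x (r / 2), ‖z - x‖ ≤ r := by
    intro z hz
    rw [mem_ball, dist_eq_norm] at hz
    linarith
  have hlow : ∀ z, ‖z - x‖ ≤ r / 2 / 4 → 2 * M * q ^ 3 ≤ ‖deriv g z‖ := by
    apply FSE2_low (deriv g) x (r / 2) M q (by positivity) hM0 hq0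
      (hdg.mono (fun z hz => (hnear z (hinr z hz)).1))
    · intro z hz
      obtain ⟨h1, h2⟩ := hnear z (hinr z hz)
      exact hNC' z h1 (by linarith)
    · intro z hz
      apply hup
      rw [mem_ball, dist_eq_norm] at hz
      exact hz.le
    · have h1 : 2 * M * q = a * c'' / c' := by
        rw [hMdef, hq, hrdef]
        field_simp
        ring
      rw [h1, div_le_iff₀ hc'0]
      rwa [le_div_iff₀ hc''0] at hax'
  -- the point `p`
  have hpx : ‖p - x‖ ≤ r / 16 := by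
    have h1 := (hK' V hDV x hxm).2 p (by
      refine hpd'.trans ?_
      rw [div_le_iff₀ (by positivity)]
      nlinarith)
    calc ‖p - x‖ ≤ K' * (pd V x p * c') := h1
      _ ≤ K' * (κ / (16 * K') * c') := by
        apply mul_le_mul_of_nonneg_left _ hK'0.le
        exact mul_le_mul_of_nonneg_right hpd' hc'0.le
      _ = r / 16 := by
        rw [hrdef]
        field_simp
  have hcp : cr V p ≤ C * c' := by
    refine ((hCW V hDV x hxm).1 p hpV' (hpd'.trans ?_)).2.1
    rw [div_le_iff₀ (by positivity)]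
    nlinarith
  have hzx : ∀ z, ‖z - p‖ ≤ κ / (16 * C) * cr V p → ‖z - x‖ ≤ r / 8 := by
    intro z hz
    have h1 : κ / (16 * C) * cr V p ≤ r / 16 := by
      calc κ / (16 * C) * cr V p ≤ κ / (16 * C) * (C * c') := mul_le_mul_of_nonneg_left hcp (by positivity)
        _ = r / 16 := by
          rw [hrdef]
          field_simp
    calc ‖z - x‖ = ‖(z - p) + (p - x)‖ := by ring_nf
      _ ≤ ‖z - p‖ + ‖p - x‖ := norm_add_le _ _
      _ ≤ r / 8 := by linarith
  refine ⟨fun ξ hξ => (hnear ξ (by linarith [hzx ξ hξ])).1, ?_⟩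
  intro z ξ hz hξ
  have h1 := hzx z hz
  have h2 := hzx ξ hξ
  have h3 : ‖g ξ - g z‖ ≤ M * ‖ξ - z‖ := by
    apply Convex.norm_image_sub_le_of_norm_deriv_le (s := closedBall x (r / 2))
    · intro w hw
      rw [mem_closedBall, dist_eq_norm] at hw
      exact hg.differentiableAt (hVo.mem_nhds (hnear w (by linarith)).1)
    · intro w hw
      rw [mem_closedBall, dist_eq_norm] at hw
      exact hup w hw
    · exact convex_closedBall _ _
    · rw [mem_closedBall, dist_eq_norm]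
      linarith
    · rw [mem_closedBall, dist_eq_norm]
      linarith
  have h4 := hlow z (by linarith)
  have h5 : M ≤ 1 / (2 * q ^ 3) * ‖deriv g z‖ := by
    rw [div_mul_eq_mul_div, one_mul, le_div_iff₀ (by positivity)]
    linarith
  have h6 : 0 ≤ ‖deriv g z‖ := norm_nonneg _
  calc ‖g ξ - g z‖ ≤ M * ‖ξ - z‖ := h3
    _ ≤ (1 / (2 * q ^ 3) * ‖deriv g z‖) * ‖ξ - z‖ := mul_le_mul_of_nonneg_right h5 (norm_nonneg _)
    _ ≤ (1 + 1 / (2 * q ^ 3)) * ‖deriv g z‖ * ‖ξ - z‖ := by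
      apply mul_le_mul_of_nonneg_right _ (norm_nonneg _)
      linarith

end RA
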